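import Mathlib
import Pool.Agent.helper79.OC.AA0

/-!
Incidences: from an odd coefficient of a power of `Δ` to an odd partition number.
-/

set_option autoImplicit false
open PowerSeries Finset

namespace Pool.Agent.helper7.OC

open Pool.Agent.helper81 (EE PP)
open Pool.Agent.helper12.PE (DD pentSet mem_pentSet coeff_EE_pow sq_pentagonal)

/-- The exponent `(4 ^ μ - 1) / 3`. -/
lemma three_mul_jj (μ : ℕ) : 3 * ((4 ^ μ - 1) / 3) + 1 = 4 ^ μ := by
  have h : 4 ^ μ % 3 = 1 := by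
    rw [Nat.pow_mod]; norm_num
  have : 0 < 4 ^ μ := by positivity
  omega

/-- A nonzero coefficient of `Δ ^ ((4 ^ μ - 1) / 3)` is a sum of partition numbers. -/
lemma coeff_DD_pow_sum (μ N : ℕ) (h : coeff N (DD ^ ((4 ^ μ - 1) / 3)) ≠ 0) :
    ∃ n' : ℕ, 3 * N + 1 = 24 * n' + 4 ^ μ ∧ coeff N (DD ^ ((4 ^ μ - 1) / 3)) =
      ∑ k ∈ pentSet (4 ^ μ) n', coeff (n' - 4 ^ μ * pentagonal k) PP := by
  set j := (4 ^ μ - 1) / 3 with hj
  have hj3 := three_mul_jj μ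
  rw [← hj] at hj3
  rw [DD_pow_eq] at h
  have hle : j ≤ N := by
    by_contra hcon
    apply h
    rw [coeff_X_pow_mul', if_neg hcon]
  obtain ⟨m, rfl⟩ : ∃ m, N = m + j := ⟨N - j, by omega⟩
  rw [coeff_X_pow_mul] at h
  have hd : 8 ∣ m := by
    by_contra hcon
    exact h (coeff_expand_of_not_dvd _ _ _ hcon)
  obtain ⟨n', rfl⟩ := hd
  refine ⟨n', by omega, ?_⟩
  rw [DD_pow_eq, coeff_X_pow_mul, coeff_expand_mul, ← coeff_EE_pow]
  congr 2
  omega

theorem incidence_of (μ N : ℕ) (h : coeff N (DD ^ ((4 ^ μ - 1) / 3)) = 1) :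
    ∃ n y : ℕ, 1 ≤ y ∧ Odd (Fintype.card (Nat.Partition n)) ∧
      3 * N + 1 = 24 * n + (2 ^ μ * y) ^ 2 := by
  have hne : coeff N (DD ^ ((4 ^ μ - 1) / 3)) ≠ 0 := by rw [h]; exact one_ne_zero
  obtain ⟨n', h1, h2⟩ := coeff_DD_pow_sum μ N hne
  rw [h2] at hne
  obtain ⟨k, hk, hk2⟩ := exists_ne_zero_of_sum_ne_zero hne
  rw [mem_pentSet (Nat.one_le_pow _ _ (by norm_num))] at hk
  refine ⟨n' - 4 ^ μ * pentagonal k, (6 * k - 1).natAbs, by omega, ?_, ?_⟩
  · unfold PP at hk2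
    rw [coeff_mk] at hk2
    rw [← ZMod.natCast_eq_one_iff_odd]
    have key : ∀ a : ZMod 2, a ≠ 0 → a = 1 := by decide
    exact key _ hk2
  · have h3 := sq_pentagonal k
    have h4 : ((((6 * k - 1).natAbs : ℕ) : ℤ)) ^ 2 = (6 * k - 1) ^ 2 := by
      rw [Int.natCast_natAbs, sq_abs]
    have h5 : (24 * pentagonal k + 1 : ℕ) = (6 * k - 1).natAbs ^ 2 := by
      have : ((24 * pentagonal k + 1 : ℕ) : ℤ) = (((6 * k - 1).natAbs ^ 2 : ℕ) : ℤ) := by
        push_cast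
        rw [← Int.natCast_natAbs, h4]
        exact_mod_cast h3
      exact_mod_cast this
    have h6 : (2 : ℕ) ^ μ * 2 ^ μ = 4 ^ μ := by
      rw [← mul_pow]; norm_num
    rw [mul_pow, ← h5, sq, h6, mul_add, mul_one]
    have h7 : 24 * (n' - 4 ^ μ * pentagonal k) + 4 ^ μ * (24 * pentagonal k) = 24 * n' := by
      have : 4 ^ μ * (24 * pentagonal k) = 24 * (4 ^ μ * pentagonal k) := by ring
      omega
    omega

end Pool.Agent.helper7.OC
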