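import Mathlib
import Pool.Agent.helper7.OC.Defs

/-!
Binary digits in even and odd positions.
-/

set_option autoImplicit false

namespace Pool.Agent.helper7.OC

lemma ev_zero : ev 0 = 0 := by rw [ev]; simp
lemma od_zero : od 0 = 0 := by rw [od]; simp
lemma ev_one : ev 1 = 1 := by rw [ev_eq]; simp [ev_zero]
lemma od_one : od 1 = 0 := by rw [od_eq]; simp [od_zero]
lemma ev_two : ev 2 = 0 := by rw [ev_eq]; simp [ev_zero]
lemma od_two : od 2 = 1 := by rw [od_eq]; simp [od_zero]
lemma ev_three : ev 3 = 1 := by rw [ev_eq]; simp [ev_zero]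
lemma od_three : od 3 = 1 := by rw [od_eq]; simp [od_zero]

/-- Digits of `a + 4 ^ i * b`. -/
lemma ev_block (i : ℕ) : ∀ a b : ℕ, a < 4 ^ i → ev (a + 4 ^ i * b) = ev a + 2 ^ i * ev b := by
  induction i with
  | zero =>
    intro a b ha
    have : a = 0 := by simpa using ha
    subst this
    simp [ev_zero]
  | succ i ih =>
    intro a b ha
    rw [ev_eq (a + 4 ^ (i + 1) * b), ev_eq a]
    have h1 : (a + 4 ^ (i + 1) * b) / 4 = a / 4 + 4 ^ i * b := by
      rw [pow_succ, show a + 4 ^ i * 4 * b = a + 4 * (4 ^ i * b) by ring]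
      omega
    have h2 : (a + 4 ^ (i + 1) * b) % 2 = a % 2 := by
      rw [pow_succ, show a + 4 ^ i * 4 * b = a + 2 * (2 * (4 ^ i * b)) by ring]
      omega
    have h3 : a / 4 < 4 ^ i := by
      rw [pow_succ] at ha
      omega
    rw [h1, h2, ih _ _ h3, pow_succ]
    ring

lemma od_block (i : ℕ) : ∀ a b : ℕ, a < 4 ^ i → od (a + 4 ^ i * b) = od a + 2 ^ i * od b := by
  induction i with
  | zero =>
    intro a b ha
    have : a = 0 := by simpa using ha
    subst this
    simp [od_zero]
  | succ i ih =>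
    intro a b ha
    rw [od_eq (a + 4 ^ (i + 1) * b), od_eq a]
    have h1 : (a + 4 ^ (i + 1) * b) / 4 = a / 4 + 4 ^ i * b := by
      rw [pow_succ, show a + 4 ^ i * 4 * b = a + 4 * (4 ^ i * b) by ring]
      omega
    have h2 : (a + 4 ^ (i + 1) * b) / 2 % 2 = a / 2 % 2 := by
      rw [pow_succ, show a + 4 ^ i * 4 * b = a + 2 * (2 * (4 ^ i * b)) by ring]
      omega
    have h3 : a / 4 < 4 ^ i := by
      rw [pow_succ] at ha
      omega
    rw [h1, h2, ih _ _ h3, pow_succ]
    ring

lemma dg_block (i a b : ℕ) (h : a < 4 ^ i) : dg (a + 4 ^ i * b) = dg a + 2 ^ i * dg b := by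
  unfold dg
  rw [ev_block i a b h, od_block i a b h]
  ring

lemma ev_lt (i : ℕ) : ∀ a : ℕ, a < 4 ^ i → ev a < 2 ^ i := by
  induction i with
  | zero =>
    intro a ha
    have : a = 0 := by simpa using ha
    subst this
    simp [ev_zero]
  | succ i ih =>
    intro a ha
    rw [ev_eq a]
    have h3 : a / 4 < 4 ^ i := by
      rw [pow_succ] at ha
      omega
    have h4 := ih _ h3
    rw [pow_succ]
    omega

lemma od_lt (i : ℕ) : ∀ a : ℕ, a < 4 ^ i → od a < 2 ^ i := by
  induction i with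
  | zero =>
    intro a ha
    have : a = 0 := by simpa using ha
    subst this
    simp [od_zero]
  | succ i ih =>
    intro a ha
    rw [od_eq a]
    have h3 : a / 4 < 4 ^ i := by
      rw [pow_succ] at ha
      omega
    have h4 := ih _ h3
    rw [pow_succ]
    omega

/-- The two digit sequences determine the number. -/
theorem ev_od_inj : ∀ m n : ℕ, ev m = ev n → od m = od n → m = n := by
  intro m
  induction m using Nat.strong_induction_on with
  | _ m ih =>
    intro n h1 h2
    have e1 := ev_eq m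
    have e2 := ev_eq n
    have o1 := od_eq m
    have o2 := od_eq n
    rcases Nat.eq_zero_or_pos m with rfl | hm
    · -- n has all digits zero
      have key : ∀ n : ℕ, ev n = 0 → od n = 0 → n = 0 := by
        intro n
        induction n using Nat.strong_induction_on with
        | _ n ih2 =>
          intro h3 h4
          rcases Nat.eq_zero_or_pos n with rfl | hn
          · rfl
          · have e3 := ev_eq n
            have o3 := od_eq n
            have := ih2 (n / 4) (by omega) (by omega) (by omega)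
            omega
      rw [ev_zero] at h1
      rw [od_zero] at h2
      exact (key n h1.symm h2.symm).symm
    · have := ih (m / 4) (by omega) (n / 4) (by omega) (by omega)
      omega

lemma dg_eq (n : ℕ) : dg n = n % 2 + n / 2 % 2 + 2 * dg (n / 4) := by
  unfold dg
  rw [ev_eq n, od_eq n]
  ring

lemma dg_zero : dg 0 = 0 := by simp [dg, ev_zero, od_zero]
lemma dg_one : dg 1 = 1 := by simp [dg, ev_one, od_one]

/-- Subadditivity of the weight. -/
theorem dg_add_le : ∀ m n : ℕ, dg (m + n) ≤ dg m + dg n := by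
  have key : ∀ s m n : ℕ, m + n ≤ s → dg (m + n) ≤ dg m + dg n := by
    intro s
    induction s using Nat.strong_induction_on with
    | _ s ih =>
      intro m n hs
      rcases Nat.eq_zero_or_pos m with rfl | hm
      · simp
      rcases Nat.eq_zero_or_pos n with rfl | hn
      · simp
      rw [dg_eq (m + n), dg_eq m, dg_eq n]
      have h1 : dg (m / 4 + n / 4) ≤ dg (m / 4) + dg (n / 4) := ih (m / 4 + n / 4) (by omega) _ _ le_rfl
      by_cases hc : m % 4 + n % 4 < 4
      · have e1 : (m + n) / 4 = m / 4 + n / 4 := by omega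
        rw [e1]
        have e2 : (m + n) % 2 + (m + n) / 2 % 2 ≤ m % 2 + m / 2 % 2 + (n % 2 + n / 2 % 2) := by
          omega
        omega
      · have e1 : (m + n) / 4 = (m / 4 + n / 4) + 1 := by omega
        rw [e1]
        have h2 : dg ((m / 4 + n / 4) + 1) ≤ dg (m / 4 + n / 4) + dg 1 :=
          ih (m / 4 + n / 4 + 1) (by omega) _ _ le_rfl
        rw [dg_one] at h2
        have e2 : (m + n) % 2 + (m + n) / 2 % 2 + 2 ≤ m % 2 + m / 2 % 2 + (n % 2 + n / 2 % 2) := by
          omega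
        omega
  intro m n
  exact key _ m n le_rfl

lemma ev_succ {b : ℕ} (h : b % 2 = 0) : ev (b + 1) = ev b + 1 := by
  rw [ev_eq (b + 1), ev_eq b]
  have : (b + 1) / 4 = b / 4 := by omega
  rw [this]
  omega

lemma od_succ {b : ℕ} (h : b % 2 = 0) : od (b + 1) = od b := by
  rw [od_eq (b + 1), od_eq b]
  have : (b + 1) / 4 = b / 4 := by omega
  rw [this]
  omega

/-- A carry at an even position. -/
lemma dg_succ_odd {b : ℕ} (h : b % 2 = 1) : dg (b + 1) ≤ dg b := by
  have h1 : dg (b - 1) + 1 = dg b := by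
    have h2 := ev_succ (b := b - 1) (by omega)
    have h3 := od_succ (b := b - 1) (by omega)
    have h4 : b - 1 + 1 = b := by omega
    rw [h4] at h2 h3
    unfold dg
    omega
  have h5 : dg (b + 1) ≤ dg (b - 1) + dg 2 := by
    have := dg_add_le (b - 1) 2
    have h6 : b - 1 + 2 = b + 1 := by omega
    rwa [h6] at this
  have h7 : dg 2 = 1 := by simp [dg, ev_two, od_two]
  omega

lemma ev_add_two {b : ℕ} (h : b / 2 % 2 = 0) : ev (b + 2) = ev b := by
  rw [ev_eq (b + 2), ev_eq b]
  have : (b + 2) / 4 = b / 4 := by omega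
  rw [this]
  omega

lemma od_add_two {b : ℕ} (h : b / 2 % 2 = 0) : od (b + 2) = od b + 1 := by
  rw [od_eq (b + 2), od_eq b]
  have : (b + 2) / 4 = b / 4 := by omega
  rw [this]
  omega

/-- One carry at an odd position. -/
lemma ev_add_two' {b : ℕ} (h : b / 2 % 2 = 1) (h' : b / 4 % 2 = 0) : ev (b + 2) = ev b + 2 := by
  rw [ev_eq (b + 2), ev_eq b]
  have : (b + 2) / 4 = b / 4 + 1 := by omega
  rw [this, ev_succ h']
  omega

lemma od_add_two' {b : ℕ} (h : b / 2 % 2 = 1) (h' : b / 4 % 2 = 0) : od (b + 2) + 1 = od b := by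
  rw [od_eq (b + 2), od_eq b]
  have : (b + 2) / 4 = b / 4 + 1 := by omega
  rw [this, od_succ h']
  omega

/-- A long carry at an odd position. -/
lemma dg_add_two' {b : ℕ} (h : b / 2 % 2 = 1) (h' : b / 4 % 2 = 1) : dg (b + 2) + 1 ≤ dg b := by
  rw [dg_eq (b + 2), dg_eq b]
  have : (b + 2) / 4 = b / 4 + 1 := by omega
  rw [this]
  have := dg_succ_odd h'
  omega

/-- Every pair of digit sequences occurs. -/
theorem exists_ev_od : ∀ a b : ℕ, ∃ j, ev j = a ∧ od j = b := by
  intro a
  induction a using Nat.strong_induction_on with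
  | _ a ih =>
    intro b
    by_cases ha : a = 0
    · subst ha
      induction b using Nat.strong_induction_on with
      | _ b ihb =>
        by_cases hb : b = 0
        · subst hb
          exact ⟨0, ev_zero, od_zero⟩
        · obtain ⟨j, h1, h2⟩ := ihb (b / 2) (by omega)
          refine ⟨2 * (b % 2) + 4 * j, ?_, ?_⟩
          · rw [ev_eq]
            have e1 : (2 * (b % 2) + 4 * j) / 4 = j := by omega
            rw [e1]; omega
          · rw [od_eq]
            have e1 : (2 * (b % 2) + 4 * j) / 4 = j := by omega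
            rw [e1]; omega
    · obtain ⟨j, h1, h2⟩ := ih (a / 2) (by omega) (b / 2)
      refine ⟨a % 2 + 2 * (b % 2) + 4 * j, ?_, ?_⟩
      · rw [ev_eq]
        have e1 : (a % 2 + 2 * (b % 2) + 4 * j) / 4 = j := by omega
        rw [e1]; omega
      · rw [od_eq]
        have e1 : (a % 2 + 2 * (b % 2) + 4 * j) / 4 = j := by omega
        rw [e1]; omega

/-- Splitting of a number at a position. -/
lemma exists_block (i j : ℕ) : ∃ a b, a < 4 ^ i ∧ j = a + 4 ^ i * b := by
  refine ⟨j % 4 ^ i, j / 4 ^ i, Nat.mod_lt _ (by positivity), ?_⟩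
  rw [Nat.mod_add_div]

/-- Adding `4 ^ i`. -/
lemma add_pow_four_cases (i j : ℕ) :
    (ev (j + 4 ^ i) = ev j + 2 ^ i ∧ od (j + 4 ^ i) = od j ∧ ev j / 2 ^ i % 2 = 0) ∨
    (dg (j + 4 ^ i) ≤ dg j ∧ ev j / 2 ^ i % 2 = 1) := by
  obtain ⟨a, b, ha, rfl⟩ := exists_block i j
  have e1 : a + 4 ^ i * b + 4 ^ i = a + 4 ^ i * (b + 1) := by ring
  have hev : ev (a + 4 ^ i * b) / 2 ^ i = ev b := by
    rw [ev_block i a b ha, Nat.add_mul_div_left _ _ (by positivity),
      Nat.div_eq_of_lt (ev_lt i a ha), zero_add]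
  have hb : ev b % 2 = b % 2 := by
    rw [ev_eq b]; omega
  rcases Nat.mod_two_eq_zero_or_one b with h | h
  · left
    refine ⟨?_, ?_, by rw [hev, hb, h]⟩
    · rw [e1, ev_block i a _ ha, ev_block i a _ ha, ev_succ h]; ring
    · rw [e1, od_block i a _ ha, od_block i a _ ha, od_succ h]
  · right
    refine ⟨?_, by rw [hev, hb, h]⟩
    rw [e1, dg_block i a _ ha, dg_block i a _ ha]
    have := dg_succ_odd h
    have := Nat.mul_le_mul_left (2 ^ i) this
    omega

/-- Adding `2 * 4 ^ i`. -/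
lemma add_two_pow_four_cases (i j : ℕ) :
    (ev (j + 2 * 4 ^ i) = ev j ∧ od (j + 2 * 4 ^ i) = od j + 2 ^ i ∧ od j / 2 ^ i % 2 = 0) ∨
    (ev (j + 2 * 4 ^ i) = ev j + 2 * 2 ^ i ∧ od (j + 2 * 4 ^ i) + 2 ^ i = od j ∧
      od j / 2 ^ i % 2 = 1) ∨
    (dg (j + 2 * 4 ^ i) < dg j ∧ od j / 2 ^ i % 2 = 1) := by
  obtain ⟨a, b, ha, rfl⟩ := exists_block i j
  have e1 : a + 4 ^ i * b + 2 * 4 ^ i = a + 4 ^ i * (b + 2) := by ring
  have hod : od (a + 4 ^ i * b) / 2 ^ i = od b := by
    rw [od_block i a b ha, Nat.add_mul_div_left _ _ (by positivity),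
      Nat.div_eq_of_lt (od_lt i a ha), zero_add]
  have hb : od b % 2 = b / 2 % 2 := by
    rw [od_eq b]; omega
  have hpos : 0 < 2 ^ i := by positivity
  rcases Nat.mod_two_eq_zero_or_one (b / 2) with h | h
  · left
    refine ⟨?_, ?_, by rw [hod, hb, h]⟩
    · rw [e1, ev_block i a _ ha, ev_block i a _ ha, ev_add_two h]
    · rw [e1, od_block i a _ ha, od_block i a _ ha, od_add_two h]; ring
  · right
    rcases Nat.mod_two_eq_zero_or_one (b / 4) with h' | h'
    · left
      refine ⟨?_, ?_, by rw [hod, hb, h]⟩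
      · rw [e1, ev_block i a _ ha, ev_block i a _ ha, ev_add_two' h h']; ring
      · rw [e1, od_block i a _ ha, od_block i a _ ha, ← od_add_two' h h']; ring
    · right
      refine ⟨?_, by rw [hod, hb, h]⟩
      rw [e1, dg_block i a _ ha, dg_block i a _ ha]
      have h1 := dg_add_two' h h'
      have h2 := Nat.mul_le_mul_left (2 ^ i) h1
      rw [mul_add, mul_one] at h2
      omega

/-- Adding a top digit at an even position. -/
lemma ev_top (i j : ℕ) (h : j < 4 * 4 ^ i) : ev (j + 4 * 4 ^ i) = ev j + 2 * 2 ^ i := by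
  have h1 : j < 4 ^ (i + 1) := by rw [pow_succ]; omega
  have := ev_block (i + 1) j 1 h1
  rw [ev_one, mul_one, mul_one, pow_succ, pow_succ] at this
  rw [show j + 4 * 4 ^ i = j + 4 ^ i * 4 by ring, this]
  ring

lemma od_top (i j : ℕ) (h : j < 4 * 4 ^ i) : od (j + 4 * 4 ^ i) = od j := by
  have h1 : j < 4 ^ (i + 1) := by rw [pow_succ]; omega
  have := od_block (i + 1) j 1 h1
  rw [od_one, mul_zero, mul_one, pow_succ] at this
  rw [show j + 4 * 4 ^ i = j + 4 ^ i * 4 by ring, this]
  ring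

/-- Adding a top digit at an odd position. -/
lemma ev_top' (i j : ℕ) (h : j < 8 * 4 ^ i) : ev (j + 8 * 4 ^ i) = ev j := by
  obtain ⟨a, b, ha, hj⟩ := exists_block (i + 1) j
  have hb : b < 2 := by
    rw [pow_succ] at hj
    have h4 : 0 < 4 ^ i := by positivity
    by_contra hcon
    have h5 : 2 ≤ b := by omega
    have h6 : 4 ^ i * 4 * 2 ≤ 4 ^ i * 4 * b := Nat.mul_le_mul_left _ h5
    omega
  have e1 : j + 8 * 4 ^ i = a + 4 ^ (i + 1) * (b + 2) := by rw [hj, pow_succ]; ring
  rw [e1, hj, ev_block _ _ _ ha, ev_block _ _ _ ha, ev_add_two (by omega)]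

lemma od_top' (i j : ℕ) (h : j < 8 * 4 ^ i) : od (j + 8 * 4 ^ i) = od j + 2 * 2 ^ i := by
  obtain ⟨a, b, ha, hj⟩ := exists_block (i + 1) j
  have hb : b < 2 := by
    rw [pow_succ] at hj
    have h4 : 0 < 4 ^ i := by positivity
    by_contra hcon
    have h5 : 2 ≤ b := by omega
    have h6 : 4 ^ i * 4 * 2 ≤ 4 ^ i * 4 * b := Nat.mul_le_mul_left _ h5
    omega
  have e1 : j + 8 * 4 ^ i = a + 4 ^ (i + 1) * (b + 2) := by rw [hj, pow_succ]; ring
  rw [e1, hj, od_block _ _ _ ha, od_block _ _ _ ha, od_add_two (by omega), pow_succ]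
  ring

end Pool.Agent.helper7.OC
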