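import Mathlib
import Pool.Agent.helper81.PMDissect
import Pool.Agent.helper12.PE.Err

/-!
Modular equations of level 3 and 5 for the discriminant modulo 2.
-/

set_option autoImplicit false
open PowerSeries Finset

namespace Pool.Agent.helper38.PO

open Pool.Agent.helper81 (EE PP PP_mul_EE two_eq_zero' EE_cube_cg norm_eq E5_eq part_one_EE
  ac_eq EE_split part E5 E25 constantCoeff_EE coeff_EE)
open Pool.Agent.helper12.PE (DD pow_eq_expand)

lemma frob (a b : (ZMod 2)⟦X⟧) (n : ℕ) : (a + b) ^ (2 ^ n) = a ^ (2 ^ n) + b ^ (2 ^ n) := by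
  induction n with
  | zero => simp
  | succ n ih =>
    rw [pow_succ, pow_mul, ih, pow_mul, pow_mul]
    linear_combination (a ^ (2 ^ n) * b ^ (2 ^ n)) * two_eq_zero'

lemma tri_inj {s t : ℕ} (h : s * (s + 1) / 2 = t * (t + 1) / 2) : s = t := by
  have h1 : 2 * (s * (s + 1) / 2) = s * (s + 1) :=
    Nat.mul_div_cancel' (Nat.even_mul_succ_self s).two_dvd
  have h2 : 2 * (t * (t + 1) / 2) = t * (t + 1) :=
    Nat.mul_div_cancel' (Nat.even_mul_succ_self t).two_dvd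
  have h3 : s * (s + 1) = t * (t + 1) := by rw [← h1, ← h2, h]
  rcases lt_trichotomy s t with h4 | h4 | h4
  · nlinarith
  · exact h4
  · nlinarith

open Classical in
/-- The coefficients of the cube of the Euler series: triangular numbers. -/
lemma coeff_cube (n : ℕ) : coeff n (EE ^ 3) = if ∃ s, s * (s + 1) / 2 = n then 1 else 0 := by
  rw [(EE_cube_cg n).coeff_eq (show n < 2 * n + 1 by omega), map_sum]
  simp only [coeff_X_pow]
  split_ifs with h
  · obtain ⟨s, hs⟩ := h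
    rw [Finset.sum_eq_single s]
    · rw [if_pos hs.symm]
    · intro t _ ht
      rw [if_neg]
      intro h1
      exact ht (tri_inj (by rw [hs, h1]))
    · intro hs2
      exfalso
      apply hs2
      rw [mem_range]
      have h1 : 2 * (s * (s + 1) / 2) = s * (s + 1) :=
        Nat.mul_div_cancel' (Nat.even_mul_succ_self s).two_dvd
      rw [hs] at h1
      nlinarith
  · apply Finset.sum_eq_zero
    intro t _
    rw [if_neg]
    intro h1
    exact h ⟨t, h1.symm⟩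

lemma tri_three (m : ℕ) : (∃ s, s * (s + 1) / 2 = 3 * m) ↔ m ∈ Set.range pentagonal := by
  constructor
  · rintro ⟨s, hs⟩
    have h1 : 2 * (s * (s + 1) / 2) = s * (s + 1) :=
      Nat.mul_div_cancel' (Nat.even_mul_succ_self s).two_dvd
    rw [hs] at h1
    have h3 : s % 3 = 0 ∨ s % 3 = 1 ∨ s % 3 = 2 := by omega
    rcases h3 with h | h | h
    · obtain ⟨t, rfl⟩ : ∃ t, s = 3 * t := ⟨s / 3, by omega⟩
      refine ⟨-(t : ℤ), ?_⟩
      have h4 := two_mul_natCast_pentagonal (-(t : ℤ))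
      have h5 : (2 * (3 * m) : ℤ) = (3 * t) * (3 * t + 1) := by exact_mod_cast h1
      have h6 : (pentagonal (-(t : ℤ)) : ℤ) = m := by linarith
      exact_mod_cast h6
    · exfalso
      obtain ⟨t, rfl⟩ : ∃ t, s = 3 * t + 1 := ⟨s / 3, by omega⟩
      have : (3 * t + 1) * (3 * t + 1 + 1) = 3 * (3 * t * t + 3 * t) + 2 := by ring
      omega
    · obtain ⟨t, rfl⟩ : ∃ t, s = 3 * t + 2 := ⟨s / 3, by omega⟩
      refine ⟨(t : ℤ) + 1, ?_⟩
      have h4 := two_mul_natCast_pentagonal ((t : ℤ) + 1)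
      have h5 : (2 * (3 * m) : ℤ) = (3 * t + 2) * (3 * t + 2 + 1) := by exact_mod_cast h1
      have h6 : (pentagonal ((t : ℤ) + 1) : ℤ) = m := by linarith
      exact_mod_cast h6
  · rintro ⟨k, rfl⟩
    have h4 := two_mul_natCast_pentagonal k
    rcases le_or_gt k 0 with hk | hk
    · obtain ⟨t, rfl⟩ : ∃ t : ℕ, k = -(t : ℤ) := ⟨k.natAbs, by omega⟩
      refine ⟨3 * t, ?_⟩
      have h5 : 2 * (3 * t * (3 * t + 1) / 2) = 3 * t * (3 * t + 1) :=
        Nat.mul_div_cancel' (Nat.even_mul_succ_self (3 * t)).two_dvd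
      have h6 : (2 * (3 * t * (3 * t + 1) / 2 : ℕ) : ℤ) = 3 * t * (3 * t + 1) := by
        exact_mod_cast h5
      have h7 : ((3 * t * (3 * t + 1) / 2 : ℕ) : ℤ) = ((3 * pentagonal (-(t : ℤ)) : ℕ) : ℤ) := by
        push_cast at h6 ⊢
        linarith
      exact_mod_cast h7
    · obtain ⟨t, rfl⟩ : ∃ t : ℕ, k = (t : ℤ) + 1 := ⟨(k - 1).toNat, by omega⟩
      refine ⟨3 * t + 2, ?_⟩
      have h5 : 2 * ((3 * t + 2) * (3 * t + 2 + 1) / 2) = (3 * t + 2) * (3 * t + 2 + 1) :=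
        Nat.mul_div_cancel' (Nat.even_mul_succ_self (3 * t + 2)).two_dvd
      have h6 : (2 * ((3 * t + 2) * (3 * t + 2 + 1) / 2 : ℕ) : ℤ) =
          (3 * t + 2) * (3 * t + 2 + 1) := by
        exact_mod_cast h5
      have h7 : (((3 * t + 2) * (3 * t + 2 + 1) / 2 : ℕ) : ℤ) =
          ((3 * pentagonal ((t : ℤ) + 1) : ℕ) : ℤ) := by
        push_cast at h6 ⊢
        linarith
      exact_mod_cast h7

lemma tri_one (m : ℕ) : (∃ s, s * (s + 1) / 2 = 3 * m + 1) ↔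
    (3 ∣ m ∧ ∃ s, s * (s + 1) / 2 = m / 3) := by
  constructor
  · rintro ⟨s, hs⟩
    have h1 : 2 * (s * (s + 1) / 2) = s * (s + 1) :=
      Nat.mul_div_cancel' (Nat.even_mul_succ_self s).two_dvd
    rw [hs] at h1
    have h3 : s % 3 = 0 ∨ s % 3 = 1 ∨ s % 3 = 2 := by omega
    rcases h3 with h | h | h
    · exfalso
      obtain ⟨t, rfl⟩ : ∃ t, s = 3 * t := ⟨s / 3, by omega⟩
      have : 3 * t * (3 * t + 1) = 3 * (3 * t * t + t) := by ring
      omega
    · obtain ⟨t, rfl⟩ : ∃ t, s = 3 * t + 1 := ⟨s / 3, by omega⟩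
      have h5 : 2 * (t * (t + 1) / 2) = t * (t + 1) :=
        Nat.mul_div_cancel' (Nat.even_mul_succ_self t).two_dvd
      have h6 : (3 * t + 1) * (3 * t + 1 + 1) = 9 * (t * (t + 1)) + 2 := by ring
      have h7 : m = 3 * (t * (t + 1) / 2) := by omega
      exact ⟨⟨_, h7⟩, t, by omega⟩
    · exfalso
      obtain ⟨t, rfl⟩ : ∃ t, s = 3 * t + 2 := ⟨s / 3, by omega⟩
      have : (3 * t + 2) * (3 * t + 2 + 1) = 3 * ((3 * t + 2) * (t + 1)) := by ring
      omega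
  · rintro ⟨⟨c, rfl⟩, t, ht⟩
    have h5 : 2 * (t * (t + 1) / 2) = t * (t + 1) :=
      Nat.mul_div_cancel' (Nat.even_mul_succ_self t).two_dvd
    refine ⟨3 * t + 1, ?_⟩
    have h6 : (3 * t + 1) * (3 * t + 1 + 1) = 9 * (t * (t + 1)) + 2 := by ring
    omega

lemma tri_two (m : ℕ) : ¬ ∃ s, s * (s + 1) / 2 = 3 * m + 2 := by
  rintro ⟨s, hs⟩
  have h1 : 2 * (s * (s + 1) / 2) = s * (s + 1) :=
    Nat.mul_div_cancel' (Nat.even_mul_succ_self s).two_dvd
  rw [hs] at h1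
  have h3 : s % 3 = 0 ∨ s % 3 = 1 ∨ s % 3 = 2 := by omega
  rcases h3 with h | h | h
  · obtain ⟨t, rfl⟩ : ∃ t, s = 3 * t := ⟨s / 3, by omega⟩
    have : 3 * t * (3 * t + 1) = 3 * (3 * t * t + t) := by ring
    omega
  · obtain ⟨t, rfl⟩ : ∃ t, s = 3 * t + 1 := ⟨s / 3, by omega⟩
    have h6 : (3 * t + 1) * (3 * t + 1 + 1) = 9 * (t * (t + 1)) + 2 := by ring
    omega
  · obtain ⟨t, rfl⟩ : ∃ t, s = 3 * t + 2 := ⟨s / 3, by omega⟩
    have : (3 * t + 2) * (3 * t + 2 + 1) = 3 * ((3 * t + 2) * (t + 1)) := by ring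
    omega

/-- The 3-dissection of the cube of the Euler series. -/
lemma cube_split : EE ^ 3 = PowerSeries.expand 3 (by norm_num) EE +
    X * PowerSeries.expand 9 (by norm_num) (EE ^ 3) := by
  classical
  ext n
  rw [coeff_cube, map_add]
  have h3 : n % 3 = 0 ∨ n % 3 = 1 ∨ n % 3 = 2 := by omega
  rcases h3 with h | h | h
  · obtain ⟨m, rfl⟩ : ∃ m, n = 3 * m := ⟨n / 3, by omega⟩
    rw [coeff_expand_mul, coeff_EE]
    have h0 : coeff (3 * m) (X * PowerSeries.expand 9 (by norm_num) (EE ^ 3)) = 0 := by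
      rcases Nat.eq_zero_or_pos m with rfl | hm
      · simp
      · obtain ⟨k, hk⟩ : ∃ k, 3 * m = k + 1 := ⟨3 * m - 1, by omega⟩
        rw [hk, coeff_succ_X_mul]
        apply coeff_expand_of_not_dvd
        omega
    rw [h0, add_zero]
    simp only [tri_three]
  · obtain ⟨m, rfl⟩ : ∃ m, n = 3 * m + 1 := ⟨n / 3, by omega⟩
    rw [coeff_expand_of_not_dvd _ _ _ (by omega : ¬ 3 ∣ 3 * m + 1), zero_add, coeff_succ_X_mul]
    simp only [tri_one]
    by_cases hm : 3 ∣ m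
    · obtain ⟨c, rfl⟩ := hm
      rw [show 3 * (3 * c) = 9 * c by ring, coeff_expand_mul, coeff_cube]
      have e1 : 3 * c / 3 = c := by omega
      rw [e1]
      by_cases h2 : ∃ s, s * (s + 1) / 2 = c
      · rw [if_pos ⟨⟨c, rfl⟩, h2⟩, if_pos h2]
      · rw [if_neg (fun h' => h2 h'.2), if_neg h2]
    · rw [if_neg (fun h' => hm h'.1), coeff_expand_of_not_dvd]
      omega
  · obtain ⟨m, rfl⟩ : ∃ m, n = 3 * m + 2 := ⟨n / 3, by omega⟩
    rw [if_neg (tri_two m), coeff_expand_of_not_dvd _ _ _ (by omega : ¬ 3 ∣ 3 * m + 2),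
      show 3 * m + 2 = (3 * m + 1) + 1 by ring, coeff_succ_X_mul,
      coeff_expand_of_not_dvd _ _ _ (by omega), add_zero]

/-- The Euler series in the variable `X ^ 3`. -/
noncomputable abbrev E3 : (ZMod 2)⟦X⟧ := PowerSeries.expand 3 (by norm_num) EE

lemma eq_zero_of_eq_X_mul_expand {K : (ZMod 2)⟦X⟧} {p : ℕ} (hp : p ≠ 0)
    (h : K = X * PowerSeries.expand p hp K) : K = 0 := by
  have hc : ∀ n, coeff n K = 0 := by
    intro n
    induction n using Nat.strong_induction_on with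
    | _ n ih =>
      rw [h]
      rcases n with _ | n
      · simp
      · rw [coeff_succ_X_mul]
        by_cases hd : p ∣ n
        · obtain ⟨c, rfl⟩ := hd
          rw [coeff_expand_mul]
          apply ih
          have : c ≤ p * c := Nat.le_mul_of_pos_left _ (Nat.pos_of_ne_zero hp)
          omega
        · exact coeff_expand_of_not_dvd _ _ _ hd
  ext n
  rw [hc, map_zero]

/-- The modular equation of level 3 for the Euler series. -/
theorem mod_three_EE : EE ^ 12 + X * E3 ^ 12 = EE ^ 3 * E3 ^ 3 := by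
  have h2 := two_eq_zero'
  have h1 := cube_split
  set w : (ZMod 2)⟦X⟧ := PowerSeries.expand 9 (by norm_num) EE with hw
  have hw3 : PowerSeries.expand 9 (by norm_num) (EE ^ 3) = w ^ 3 := by rw [map_pow]
  rw [hw3] at h1
  have h33 : PowerSeries.expand 3 (by norm_num) E3 = w := by
    rw [hw, ← PowerSeries.expand_mul]
  have hK : EE ^ 12 + X * E3 ^ 12 + EE ^ 3 * E3 ^ 3 =
      X * PowerSeries.expand 3 (by norm_num) (EE ^ 12 + X * E3 ^ 12 + EE ^ 3 * E3 ^ 3) := by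
    rw [map_add, map_add, map_mul, map_mul, map_pow, map_pow, map_pow, map_pow, expand_X, h33]
    change EE ^ 12 + X * E3 ^ 12 + EE ^ 3 * E3 ^ 3 =
      X * (E3 ^ 12 + X ^ 3 * w ^ 12 + E3 ^ 3 * w ^ 3)
    have e1 : EE ^ 12 = E3 ^ 4 + X ^ 4 * w ^ 12 := by
      have : EE ^ 12 = (EE ^ 3) ^ 4 := by ring
      rw [this, h1]
      linear_combination (2 * E3 ^ 3 * (X * w ^ 3) + 3 * E3 ^ 2 * (X * w ^ 3) ^ 2 +
        2 * E3 * (X * w ^ 3) ^ 3) * h2
    rw [e1]
    linear_combination E3 ^ 3 * h1 + E3 ^ 4 * h2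
  have h0 := eq_zero_of_eq_X_mul_expand _ hK
  linear_combination h0 - EE ^ 3 * E3 ^ 3 * h2

/-- The modular equation of level 5 for the Euler series. -/
theorem mod_five_EE : EE ^ 6 + X * E5 ^ 6 = EE * E5 := by
  set a := part 0 EE with ha
  set b := part 1 EE with hb
  set c := part 2 EE with hc
  have hE : EE = a + b + c := EE_split
  have hac : a * c = b ^ 2 := ac_eq
  have hN : (a ^ 5 + b ^ 5 + c ^ 5) * E25 = E5 ^ 6 := norm_eq
  have hb' : b = X * E25 := part_one_EE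
  have hD : a ^ 5 + c ^ 5 = E5 := E5_eq
  have h2 := two_eq_zero'
  have hM : EE * (a^4+a^3*b+a*b^3+b^4+b^3*c+b*c^3+c^4) = a ^ 5 + b ^ 5 + c ^ 5 := by
    rw [hE]
    linear_combination (a^3 + a^2*b + 2*b^3 + b*c^2 + c^3) * hac + (a^4*b + a^3*b^2 + a^2*b^3 +
      a*b^4 + b^5 + b^4*c + b^3*c^2 + b^2*c^3 + b*c^4) * h2
  have h3 : a^5 + c^5 + EE^5 + b * (a^4+a^3*b+a*b^3+b^4+b^3*c+b*c^3+c^4) = 0 := by
    rw [hE]
    linear_combination (5*a^3 + 20*a^2*b + 10*a^2*c + 40*a*b^2 + 30*a*b*c + 10*a*c^2 + 50*b^3 +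
      40*b^2*c + 20*b*c^2 + 5*c^3) * hac + (a^5 + 3*a^4*b + 8*a^3*b^2 + 15*a^2*b^3 + 23*a*b^4 +
      26*b^5 + 23*b^4*c + 15*b^3*c^2 + 8*b^2*c^3 + 3*b*c^4 + c^5) * h2
  have h4 : X * E5 ^ 6 = b * EE * (a^4+a^3*b+a*b^3+b^4+b^3*c+b*c^3+c^4) := by
    rw [mul_assoc, hM, ← hN, hb']; ring
  rw [h4, ← hD]
  linear_combination EE * h3 - (EE * (a ^ 5 + c ^ 5)) * h2

/-- The modular equation of level 3 for the discriminant modulo 2. -/
theorem mod_three : (DD + PowerSeries.expand 3 (by norm_num) DD) ^ 4 =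
    DD * PowerSeries.expand 3 (by norm_num) DD := by
  have h2 := two_eq_zero'
  have hy : PowerSeries.expand 3 (by norm_num) DD = X ^ 3 * E3 ^ 24 := by
    unfold DD
    rw [map_mul, map_pow, expand_X]
  have h := mod_three_EE
  have h8 : EE ^ 96 + X ^ 8 * E3 ^ 96 = EE ^ 24 * E3 ^ 24 := by
    have h1 : (EE ^ 12 + X * E3 ^ 12) ^ 8 = (EE ^ 3 * E3 ^ 3) ^ 8 := by rw [h]
    have h3 : (EE ^ 12 + X * E3 ^ 12) ^ 8 = (EE ^ 12) ^ 8 + (X * E3 ^ 12) ^ 8 := by
      have := frob (EE ^ 12) (X * E3 ^ 12) 3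
      simpa using this
    rw [h3] at h1
    linear_combination h1
  have h4 : (DD + X ^ 3 * E3 ^ 24) ^ 4 = DD ^ 4 + (X ^ 3 * E3 ^ 24) ^ 4 := by
    have := frob DD (X ^ 3 * E3 ^ 24) 2
    simpa using this
  rw [hy, h4]
  unfold DD
  linear_combination X ^ 4 * h8

/-- The modular equation of level 5 for the discriminant modulo 2. -/
theorem mod_five : (DD + PowerSeries.expand 5 (by norm_num) DD) ^ 6 =
    DD * PowerSeries.expand 5 (by norm_num) DD := by
  have hy : PowerSeries.expand 5 (by norm_num) DD = X ^ 5 * E5 ^ 24 := by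
    unfold DD
    rw [map_mul, map_pow, expand_X]
  have h := mod_five_EE
  have h8 : EE ^ 48 + X ^ 8 * E5 ^ 48 = EE ^ 8 * E5 ^ 8 := by
    have h1 : (EE ^ 6 + X * E5 ^ 6) ^ 8 = (EE * E5) ^ 8 := by rw [h]
    have h3 : (EE ^ 6 + X * E5 ^ 6) ^ 8 = (EE ^ 6) ^ 8 + (X * E5 ^ 6) ^ 8 := by
      have := frob (EE ^ 6) (X * E5 ^ 6) 3
      simpa using this
    rw [h3] at h1
    linear_combination h1
  have h4 : (DD + X ^ 5 * E5 ^ 24) ^ 2 = DD ^ 2 + (X ^ 5 * E5 ^ 24) ^ 2 := by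
    have := frob DD (X ^ 5 * E5 ^ 24) 1
    simpa using this
  have h5 : (DD + X ^ 5 * E5 ^ 24) ^ 2 = X ^ 2 * (EE ^ 8 * E5 ^ 8) := by
    rw [h4, ← h8]
    unfold DD
    ring
  rw [hy, show (DD + X ^ 5 * E5 ^ 24) ^ 6 = ((DD + X ^ 5 * E5 ^ 24) ^ 2) ^ 3 by ring, h5]
  unfold DD
  ring

end Pool.Agent.helper38.PO
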