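import Mathlib
import Pool.Agent.helper38.PO.ModEq

/-!
The operators `U` and `V` on power series modulo 2 and recurrences for the powers of the
discriminant.
-/

set_option autoImplicit false
open PowerSeries Finset

namespace Pool.Agent.helper38.PO

open Pool.Agent.helper81 (EE two_eq_zero')
open Pool.Agent.helper12.PE (DD pow_eq_expand)

/-- The operator `U_p`. -/
noncomputable def UU (p : ℕ) (f : (ZMod 2)⟦X⟧) : (ZMod 2)⟦X⟧ :=
  PowerSeries.mk fun n => coeff (p * n) f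

lemma coeff_UU (p : ℕ) (f : (ZMod 2)⟦X⟧) (n : ℕ) : coeff n (UU p f) = coeff (p * n) f := by
  rw [UU, coeff_mk]

lemma UU_add (p : ℕ) (f g : (ZMod 2)⟦X⟧) : UU p (f + g) = UU p f + UU p g := by
  ext n
  rw [map_add, coeff_UU, coeff_UU, coeff_UU, map_add]

lemma UU_mul_expand {p : ℕ} (hp : p ≠ 0) (f g : (ZMod 2)⟦X⟧) :
    UU p (f * PowerSeries.expand p hp g) = UU p f * g := by
  classical
  ext n
  rw [coeff_UU, coeff_mul, coeff_mul]
  have hinj : Set.InjOn (fun x : ℕ × ℕ => (p * x.1, p * x.2)) (antidiagonal n : Set (ℕ × ℕ)) := by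
    intro x _ y _ h
    have h1 : p * x.1 = p * y.1 := congrArg Prod.fst h
    have h2 : p * x.2 = p * y.2 := congrArg Prod.snd h
    exact Prod.ext (Nat.eq_of_mul_eq_mul_left (Nat.pos_of_ne_zero hp) h1)
      (Nat.eq_of_mul_eq_mul_left (Nat.pos_of_ne_zero hp) h2)
  rw [← Finset.sum_subset (s₁ := (antidiagonal n).image (fun x : ℕ × ℕ => (p * x.1, p * x.2)))]
  · rw [Finset.sum_image hinj]
    refine sum_congr rfl fun x _ => ?_
    simp only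
    rw [coeff_expand_mul, coeff_UU]
  · intro x hx
    rw [mem_image] at hx
    obtain ⟨y, hy, rfl⟩ := hx
    rw [HasAntidiagonal.mem_antidiagonal] at hy ⊢
    rw [← hy, mul_add]
  · intro x hx hx2
    rw [HasAntidiagonal.mem_antidiagonal] at hx
    by_cases hd : p ∣ x.2
    · exfalso
      apply hx2
      have h1 : p ∣ x.1 := by
        have h3 : p ∣ x.1 + x.2 := by rw [hx]; exact Dvd.intro n rfl
        exact (Nat.dvd_add_left hd).1 h3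
      obtain ⟨a, ha⟩ := h1
      obtain ⟨b, hb⟩ := hd
      rw [mem_image]
      refine ⟨(a, b), ?_, ?_⟩
      · rw [HasAntidiagonal.mem_antidiagonal]
        apply Nat.eq_of_mul_eq_mul_left (Nat.pos_of_ne_zero hp)
        rw [mul_add, ← ha, ← hb, hx]
      · exact Prod.ext ha.symm hb.symm
    · rw [coeff_expand_of_not_dvd _ _ _ hd, mul_zero]

lemma UU_expand {p : ℕ} (hp : p ≠ 0) (g : (ZMod 2)⟦X⟧) : UU p (PowerSeries.expand p hp g) = g := by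
  ext n
  rw [coeff_UU, coeff_expand_mul]

lemma UU_sq {p : ℕ} (hp : p % 2 = 1) (f : (ZMod 2)⟦X⟧) : UU p (f ^ 2) = UU p f ^ 2 := by
  have h : ∀ g : (ZMod 2)⟦X⟧, g ^ 2 = PowerSeries.expand 2 (by norm_num) g := by
    intro g
    have := pow_eq_expand g 1
    simpa using this
  rw [h, h]
  ext n
  rw [coeff_UU]
  by_cases hn : 2 ∣ n
  · obtain ⟨m, rfl⟩ := hn
    rw [show p * (2 * m) = 2 * (p * m) by ring, coeff_expand_mul, coeff_expand_mul, coeff_UU]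
  · have h2 : ¬ 2 ∣ p * n := by
      intro h3
      rcases (Nat.Prime.dvd_mul Nat.prime_two).1 h3 with h4 | h4
      · omega
      · exact hn h4
    rw [coeff_expand_of_not_dvd _ _ _ hn, coeff_expand_of_not_dvd _ _ _ h2]

/-- The operator `U + V`. -/
noncomputable def TT (p : ℕ) (hp : p ≠ 0) (f : (ZMod 2)⟦X⟧) : (ZMod 2)⟦X⟧ :=
  UU p f + PowerSeries.expand p hp f

lemma pow_four {k r : ℕ} (x y : (ZMod 2)⟦X⟧) (h : (x + y) ^ 4 = x * y) :
    x ^ (k + 4 * 2 ^ r) = x ^ (k + 2 ^ r) * y ^ (2 ^ r) + x ^ k * y ^ (4 * 2 ^ r) := by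
  have h2 := two_eq_zero'
  have h4 : (x + y) ^ 4 = x ^ 4 + y ^ 4 := by simpa using frob x y 2
  have h5 : x ^ 4 = x * y + y ^ 4 := by
    rw [h4] at h
    linear_combination h - y ^ 4 * h2
  have h6 : x ^ (4 * 2 ^ r) = (x * y) ^ (2 ^ r) + y ^ (4 * 2 ^ r) := by
    rw [pow_mul, h5, frob, ← pow_mul]
  rw [pow_add, h6, mul_pow, pow_add]
  ring

/-- The recurrence for `T_3`. -/
theorem rec_three (k r : ℕ) : TT 3 (by norm_num) (DD ^ (k + 4 * 2 ^ r)) =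
    DD ^ (2 ^ r) * TT 3 (by norm_num) (DD ^ (k + 2 ^ r)) +
      DD ^ (4 * 2 ^ r) * TT 3 (by norm_num) (DD ^ k) := by
  have h := mod_three
  set y := PowerSeries.expand 3 (by norm_num) DD with hy
  have hyx : (y + DD) ^ 4 = y * DD := by rw [add_comm, h, mul_comm]
  have hV : ∀ n : ℕ, PowerSeries.expand 3 (by norm_num) (DD ^ n) = y ^ n := fun n => by
    rw [map_pow]
  have hU : UU 3 (DD ^ (k + 4 * 2 ^ r)) =
      DD ^ (2 ^ r) * UU 3 (DD ^ (k + 2 ^ r)) + DD ^ (4 * 2 ^ r) * UU 3 (DD ^ k) := by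
    rw [pow_four DD y h, UU_add, ← hV, ← hV, UU_mul_expand, UU_mul_expand]
    ring
  unfold TT
  rw [hU, hV, hV, hV, pow_four y DD hyx]
  ring

lemma pow_sixteen {k r : ℕ} (x y : (ZMod 2)⟦X⟧) (h : (x + y) ^ 6 = x * y) :
    x ^ (k + 16 * 2 ^ r) = x ^ k * y ^ (16 * 2 ^ r) + x ^ k * y ^ (8 * 2 ^ r) +
      x ^ (k + 4 * 2 ^ r) * y ^ (4 * 2 ^ r) + x ^ (k + 2 ^ r) * y ^ (3 * 2 ^ r) := by
  have h2 := two_eq_zero'
  have h6 : x ^ 6 + x ^ 2 * y ^ 4 + x ^ 4 * y ^ 2 + y ^ 6 = x * y := by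
    linear_combination h - (3 * x ^ 5 * y + 7 * x ^ 4 * y ^ 2 + 10 * x ^ 3 * y ^ 3 +
      7 * x ^ 2 * y ^ 4 + 3 * x * y ^ 5) * h2
  have h16 : x ^ 16 = y ^ 16 + y ^ 8 + x ^ 4 * y ^ 4 + x * y ^ 3 := by
    have h8 : x ^ 8 = x ^ 3 * y + x * y ^ 3 + y ^ 8 := by
      linear_combination (x ^ 2 + y ^ 2) * h6 - (x ^ 4 * y ^ 4 + x ^ 2 * y ^ 6 + x ^ 6 * y ^ 2 + y ^ 8) * h2
    have h9 : x ^ 16 = (x ^ 3 * y + x * y ^ 3 + y ^ 8) ^ 2 := by
      rw [← h8]; ring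
    rw [h9]
    linear_combination (y ^ 2) * h6 + (x ^ 3 * y ^ 9 + x * y ^ 11 - y ^ 8) * h2
  have h7 : x ^ (16 * 2 ^ r) = y ^ (16 * 2 ^ r) + y ^ (8 * 2 ^ r) + (x ^ 4 * y ^ 4) ^ (2 ^ r) +
      (x * y ^ 3) ^ (2 ^ r) := by
    rw [pow_mul, h16, frob, frob, frob, ← pow_mul, ← pow_mul]
  rw [pow_add, h7, mul_pow, mul_pow, ← pow_mul, ← pow_mul, ← pow_mul, pow_add, pow_add]
  ring

/-- The recurrence for `T_5`. -/
theorem rec_five (k r : ℕ) : TT 5 (by norm_num) (DD ^ (k + 16 * 2 ^ r)) =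
    DD ^ (16 * 2 ^ r) * TT 5 (by norm_num) (DD ^ k) +
      DD ^ (8 * 2 ^ r) * TT 5 (by norm_num) (DD ^ k) +
      DD ^ (4 * 2 ^ r) * TT 5 (by norm_num) (DD ^ (k + 4 * 2 ^ r)) +
      DD ^ (3 * 2 ^ r) * TT 5 (by norm_num) (DD ^ (k + 2 ^ r)) := by
  have h := mod_five
  set y := PowerSeries.expand 5 (by norm_num) DD with hy
  have hyx : (y + DD) ^ 6 = y * DD := by rw [add_comm, h, mul_comm]
  have hV : ∀ n : ℕ, PowerSeries.expand 5 (by norm_num) (DD ^ n) = y ^ n := fun n => by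
    rw [map_pow]
  have hU : UU 5 (DD ^ (k + 16 * 2 ^ r)) =
      DD ^ (16 * 2 ^ r) * UU 5 (DD ^ k) + DD ^ (8 * 2 ^ r) * UU 5 (DD ^ k) +
      DD ^ (4 * 2 ^ r) * UU 5 (DD ^ (k + 4 * 2 ^ r)) +
      DD ^ (3 * 2 ^ r) * UU 5 (DD ^ (k + 2 ^ r)) := by
    rw [pow_sixteen DD y h, UU_add, UU_add, UU_add, ← hV, ← hV, ← hV, ← hV, UU_mul_expand,
      UU_mul_expand, UU_mul_expand, UU_mul_expand]
    ring
  unfold TT
  rw [hU, hV, hV, hV, hV, pow_sixteen y DD hyx]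
  ring

/-- The recurrence of order six for `T_5`. -/
theorem rec_five_six (k : ℕ) : TT 5 (by norm_num) (DD ^ (k + 6)) =
    DD ^ 6 * TT 5 (by norm_num) (DD ^ k) + DD ^ 2 * TT 5 (by norm_num) (DD ^ (k + 4)) +
      DD ^ 4 * TT 5 (by norm_num) (DD ^ (k + 2)) + DD * TT 5 (by norm_num) (DD ^ (k + 1)) := by
  have h := mod_five
  have h2 := two_eq_zero'
  set y := PowerSeries.expand 5 (by norm_num) DD with hy
  have hV : ∀ n : ℕ, PowerSeries.expand 5 (by norm_num) (DD ^ n) = y ^ n := fun n => by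
    rw [map_pow]
  have h6 : DD ^ 6 + DD ^ 2 * y ^ 4 + DD ^ 4 * y ^ 2 + y ^ 6 = DD * y := by
    linear_combination h - (3 * DD ^ 5 * y + 7 * DD ^ 4 * y ^ 2 + 10 * DD ^ 3 * y ^ 3 +
      7 * DD ^ 2 * y ^ 4 + 3 * DD * y ^ 5) * h2
  have e1 : DD ^ (k + 6) = DD ^ k * y ^ 6 + DD ^ (k + 4) * y ^ 2 + DD ^ (k + 2) * y ^ 4 +
      DD ^ (k + 1) * y := by
    simp only [pow_add]
    linear_combination DD ^ k * h6 - DD ^ k * (y ^ 6 + DD ^ 2 * y ^ 4 + DD ^ 4 * y ^ 2) * h2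
  have e2 : y ^ (k + 6) = y ^ k * DD ^ 6 + y ^ (k + 4) * DD ^ 2 + y ^ (k + 2) * DD ^ 4 +
      y ^ (k + 1) * DD := by
    simp only [pow_add]
    linear_combination y ^ k * h6 - y ^ k * (DD ^ 6 + DD ^ 2 * y ^ 4 + DD ^ 4 * y ^ 2) * h2
  have hU : UU 5 (DD ^ (k + 6)) = DD ^ 6 * UU 5 (DD ^ k) + DD ^ 2 * UU 5 (DD ^ (k + 4)) +
      DD ^ 4 * UU 5 (DD ^ (k + 2)) + DD * UU 5 (DD ^ (k + 1)) := by
    have hy1 : y = PowerSeries.expand 5 (by norm_num) (DD ^ 1) := by rw [pow_one]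
    rw [e1, UU_add, UU_add, UU_add, ← hV, ← hV, ← hV]
    conv_lhs => rw [hy1]
    rw [UU_mul_expand, UU_mul_expand, UU_mul_expand, UU_mul_expand]
    ring
  unfold TT
  rw [hU, hV, hV, hV, hV, hV, e2]
  ring

end Pool.Agent.helper38.PO
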