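import Mathlib
import Pool.Agent.helper38.PO.Rec0
import Pool.Agent.helper7.OC.Defs

/-!
Modular equations and recurrences for the Hecke operators `TT` (Part A of project OC).
-/

set_option autoImplicit false
open PowerSeries Finset

namespace Pool.Agent.helper7.OC

open Pool.Agent.helper81 (EE two_eq_zero')
open Pool.Agent.helper12.PE (DD pow_eq_expand)
open Pool.Agent.helper38.PO (UU UU_mul_expand UU_expand UU_sq coeff_UU mod_three mod_five)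

theorem modeq_five : DD * PowerSeries.expand 5 (by norm_num) DD
    = (DD + PowerSeries.expand 5 (by norm_num) DD) ^ 6 := mod_five.symm

theorem modeq_three : DD * PowerSeries.expand 3 (by norm_num) DD
    = (DD + PowerSeries.expand 3 (by norm_num) DD) ^ 4 := mod_three.symm

theorem TT_eq (ℓ : ℕ) (hℓ : ℓ ≠ 0) (f : (ZMod 2)⟦X⟧) :
    TT ℓ f = UU ℓ f + PowerSeries.expand ℓ hℓ f := by
  ext n
  rw [coeff_TT, map_add, coeff_UU, coeff_expand]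

theorem TT_eq' (ℓ : ℕ) (hℓ : ℓ ≠ 0) (f : (ZMod 2)⟦X⟧) :
    TT ℓ f = Pool.Agent.helper38.PO.TT ℓ hℓ f := TT_eq ℓ hℓ f

/-- `T_ℓ` of a square. -/
theorem TT_sq (ℓ : ℕ) (hℓ : ℓ % 2 = 1) (f : (ZMod 2)⟦X⟧) : TT ℓ (f ^ 2) = TT ℓ f ^ 2 := by
  have h0 : ℓ ≠ 0 := by rintro rfl; simp at hℓ
  rw [TT_eq ℓ h0, TT_eq ℓ h0, UU_sq hℓ, map_pow]
  linear_combination -(UU ℓ f * PowerSeries.expand ℓ h0 f) * two_eq_zero'

/-- The recurrence for `T_3`. -/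
theorem TT_three_rec (k r : ℕ) : TT 3 (DD ^ (k + 4 * 2 ^ r)) =
    DD ^ (2 ^ r) * TT 3 (DD ^ (k + 2 ^ r)) + DD ^ (4 * 2 ^ r) * TT 3 (DD ^ k) := by
  rw [TT_eq' 3 (by norm_num), TT_eq' 3 (by norm_num), TT_eq' 3 (by norm_num)]
  exact Pool.Agent.helper38.PO.rec_three k r

/-- The recurrence for `T_5`. -/
theorem TT_five_rec (k r : ℕ) : TT 5 (DD ^ (k + 16 * 2 ^ r)) =
    DD ^ (16 * 2 ^ r) * TT 5 (DD ^ k) + DD ^ (8 * 2 ^ r) * TT 5 (DD ^ k) +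
      DD ^ (4 * 2 ^ r) * TT 5 (DD ^ (k + 4 * 2 ^ r)) +
      DD ^ (3 * 2 ^ r) * TT 5 (DD ^ (k + 2 ^ r)) := by
  rw [TT_eq' 5 (by norm_num), TT_eq' 5 (by norm_num), TT_eq' 5 (by norm_num),
    TT_eq' 5 (by norm_num)]
  exact Pool.Agent.helper38.PO.rec_five k r

/-- The recurrence of order six for `T_5`. -/
theorem TT_five_rec_six (k : ℕ) : TT 5 (DD ^ (k + 6)) =
    DD ^ 6 * TT 5 (DD ^ k) + DD ^ 2 * TT 5 (DD ^ (k + 4)) +
      DD ^ 4 * TT 5 (DD ^ (k + 2)) + DD * TT 5 (DD ^ (k + 1)) := by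
  rw [TT_eq' 5 (by norm_num), TT_eq' 5 (by norm_num), TT_eq' 5 (by norm_num),
    TT_eq' 5 (by norm_num), TT_eq' 5 (by norm_num)]
  exact Pool.Agent.helper38.PO.rec_five_six k

end Pool.Agent.helper7.OC
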