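import Mathlib
import Pool.Agent.helper38.PO.Rec
import Pool.Agent.helper38.PO.Dig

/-!
Dominance for `T_3`.
-/

set_option autoImplicit false
open PowerSeries Finset

namespace Pool.Agent.helper7.OC

open Pool.Agent.helper81 (EE two_eq_zero')
open Pool.Agent.helper12.PE (DD pow_eq_expand)
open Pool.Agent.helper38.PO (UU UU_add UU_mul_expand UU_expand UU_sq coeff_UU cube_split E3 frob)

lemma UU_three_X : UU 3 (X : (ZMod 2)⟦X⟧) = 0 := by
  ext n
  rw [coeff_UU, coeff_X, if_neg (by omega), map_zero]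

lemma UU_three_X_sq : UU 3 ((X : (ZMod 2)⟦X⟧) ^ 2) = 0 := by
  ext n
  rw [coeff_UU, coeff_X_pow, if_neg (by omega), map_zero]

lemma frob_eight (a b : (ZMod 2)⟦X⟧) : (a + b) ^ 8 = a ^ 8 + b ^ 8 := frob a b 3

lemma split_aux (e e3 w c x : (ZMod 2)⟦X⟧) (h : e ^ 3 = e3 + x * w) (hc : c = w ^ 8) :
    x * e ^ 24 = x * e3 ^ 8 + x ^ 9 * c := by
  have h1 : e ^ 24 = (e ^ 3) ^ 8 := by ring
  rw [h1, h, frob_eight, hc]
  ring

lemma DD_split : DD = X * PowerSeries.expand 3 (by norm_num) (EE ^ 8) +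
    PowerSeries.expand 3 (by norm_num) (PowerSeries.expand 3 (by norm_num) DD) := by
  have h9 : ∀ F : (ZMod 2)⟦X⟧, PowerSeries.expand 9 (by norm_num) F =
      PowerSeries.expand 3 (by norm_num) (PowerSeries.expand 3 (by norm_num) F) := by
    intro F
    rw [← PowerSeries.expand_mul]
  have h := split_aux EE E3 (PowerSeries.expand 9 (by norm_num) (EE ^ 3))
    (PowerSeries.expand 9 (by norm_num) (EE ^ 24)) X cube_split (by
      rw [← map_pow, ← pow_mul])
  have h2 : PowerSeries.expand 3 (by norm_num) (PowerSeries.expand 3 (by norm_num) DD) =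
      X ^ 9 * PowerSeries.expand 9 (by norm_num) (EE ^ 24) := by
    unfold DD
    rw [h9, map_mul, map_mul, expand_X, map_pow, expand_X, ← pow_mul]
  rw [h2, map_pow]
  exact h

/-- `T_3 Δ = 0`. -/
theorem TT_three_one : TT 3 DD = 0 := by
  rw [TT_eq 3 (by norm_num)]
  have h1 : UU 3 DD = PowerSeries.expand 3 (by norm_num) DD := by
    conv_lhs => rw [DD_split]
    rw [UU_add, UU_mul_expand, UU_three_X, zero_mul, zero_add, UU_expand]
  rw [h1]
  linear_combination (PowerSeries.expand 3 (by norm_num) DD) * two_eq_zero'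

/-- `T_3 Δ³ = Δ`. -/
theorem TT_three_three : TT 3 (DD ^ 3) = DD := by
  rw [TT_eq 3 (by norm_num)]
  have h1 : UU 3 (DD ^ 3) = DD + (PowerSeries.expand 3 (by norm_num) DD) ^ 3 := by
    set y := PowerSeries.expand 3 (by norm_num) DD with hy
    have h2 : DD ^ 3 = PowerSeries.expand 3 (by norm_num) (X * (EE ^ 8) ^ 3) +
        X ^ 2 * PowerSeries.expand 3 (by norm_num) ((EE ^ 8) ^ 2 * y) +
        X * PowerSeries.expand 3 (by norm_num) (EE ^ 8 * y ^ 2) +
        PowerSeries.expand 3 (by norm_num) (y ^ 3) := by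
      have h3 : DD = X * PowerSeries.expand 3 (by norm_num) (EE ^ 8) +
          PowerSeries.expand 3 (by norm_num) y := DD_split
      conv_lhs => rw [h3]
      rw [map_mul, map_mul, map_mul, map_pow (PowerSeries.expand 3 (by norm_num)) (EE ^ 8) 3,
        map_pow (PowerSeries.expand 3 (by norm_num)) (EE ^ 8) 2,
        map_pow (PowerSeries.expand 3 (by norm_num)) y 2,
        map_pow (PowerSeries.expand 3 (by norm_num)) y 3, expand_X]
      linear_combination (X ^ 2 * (PowerSeries.expand 3 (by norm_num) (EE ^ 8)) ^ 2 *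
        PowerSeries.expand 3 (by norm_num) y + X * PowerSeries.expand 3 (by norm_num) (EE ^ 8) *
        (PowerSeries.expand 3 (by norm_num) y) ^ 2) * two_eq_zero'
    rw [h2, UU_add, UU_add, UU_add, UU_mul_expand, UU_mul_expand, UU_three_X, UU_three_X_sq,
      UU_expand, UU_expand]
    have h4 : X * (EE ^ 8) ^ 3 = DD := by unfold DD; ring
    rw [h4]
    ring
  rw [h1, map_pow]
  linear_combination (PowerSeries.expand 3 (by norm_num) DD) ^ 3 * two_eq_zero'

theorem TT_three_five : TT 3 (DD ^ 5) = 0 := by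
  have h := TT_three_rec 1 0
  simp only [pow_zero, mul_one, pow_one] at h
  rw [show 5 = 1 + 4 by norm_num, h, show 1 + 1 = 2 by norm_num, TT_sq 3 (by norm_num),
    TT_three_one]
  ring

theorem TT_three_seven : TT 3 (DD ^ 7) = DD ^ 5 := by
  have h := TT_three_rec 3 0
  simp only [pow_zero, mul_one, pow_one] at h
  have h4 : TT 3 (DD ^ (3 + 1)) = 0 := by
    rw [show DD ^ (3 + 1) = (DD ^ 2) ^ 2 by ring, TT_sq 3 (by norm_num), TT_sq 3 (by norm_num),
      TT_three_one]
    ring
  rw [show 7 = 3 + 4 by norm_num, h, h4, TT_three_three]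
  ring

/-- Powers of `Δ` strictly below `Δ ^ (2 κ + 1)`. -/
def LowT (κ c : ℕ) : Set ((ZMod 2)⟦X⟧) :=
  {f | ∃ j, j < κ ∧ dg j + 1 ≤ dg κ ∧ (dg j + 1 = dg κ → od j + c < od κ) ∧ f = DD ^ (2 * j + 1)}

lemma mul_mem_of_span {S : Set ((ZMod 2)⟦X⟧)} {W : Submodule (ZMod 2) ((ZMod 2)⟦X⟧)}
    (g : (ZMod 2)⟦X⟧) (h : ∀ s ∈ S, g * s ∈ W) {f : (ZMod 2)⟦X⟧}
    (hf : f ∈ Submodule.span (ZMod 2) S) : g * f ∈ W := by
  have : Submodule.span (ZMod 2) S ≤ W.comap (LinearMap.mulLeft (ZMod 2) g) :=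
    Submodule.span_le.2 h
  exact this hf

/-- The recurrence in terms of the index `κ`, even position. -/
lemma rec3A (κ i : ℕ) : TT 3 (DD ^ (2 * (κ + 4 * 4 ^ i) + 1)) =
    DD ^ (2 * 4 ^ i) * TT 3 (DD ^ (2 * (κ + 4 ^ i) + 1)) +
      DD ^ (2 * (4 * 4 ^ i)) * TT 3 (DD ^ (2 * κ + 1)) := by
  have h := TT_three_rec (2 * κ + 1) (2 * i + 1)
  have e : 2 ^ (2 * i + 1) = 2 * 4 ^ i := by
    rw [pow_succ, pow_mul]; norm_num; ring
  rw [e] at h
  rw [show 2 * (κ + 4 * 4 ^ i) + 1 = 2 * κ + 1 + 4 * (2 * 4 ^ i) by ring, h,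
    show 2 * κ + 1 + 2 * 4 ^ i = 2 * (κ + 4 ^ i) + 1 by ring,
    show 4 * (2 * 4 ^ i) = 2 * (4 * 4 ^ i) by ring]

/-- The recurrence in terms of the index `κ`, odd position. -/
lemma rec3B (κ i : ℕ) : TT 3 (DD ^ (2 * (κ + 8 * 4 ^ i) + 1)) =
    DD ^ (2 * (2 * 4 ^ i)) * TT 3 (DD ^ (2 * (κ + 2 * 4 ^ i) + 1)) +
      DD ^ (2 * (8 * 4 ^ i)) * TT 3 (DD ^ (2 * κ + 1)) := by
  have h := TT_three_rec (2 * κ + 1) (2 * i + 2)
  have e : 2 ^ (2 * i + 2) = 4 * 4 ^ i := by
    rw [pow_add, pow_mul]; norm_num; ring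
  rw [e] at h
  rw [show 2 * (κ + 8 * 4 ^ i) + 1 = 2 * κ + 1 + 4 * (4 * 4 ^ i) by ring, h,
    show 2 * κ + 1 + 4 * 4 ^ i = 2 * (κ + 2 * 4 ^ i) + 1 by ring,
    show 4 * (4 * 4 ^ i) = 2 * (8 * 4 ^ i) by ring,
    show 2 * (2 * 4 ^ i) = 4 * 4 ^ i by ring]

lemma mul_DD (a j : ℕ) : DD ^ (2 * a) * DD ^ (2 * j + 1) = DD ^ (2 * (j + a) + 1) := by
  rw [← pow_add]; congr 1; ring

/-- Dominance for `T_3`. -/
theorem dom_three : ∀ κ : ℕ, ∃ f ∈ Submodule.span (ZMod 2) (LowT κ 0),
    (ev κ = 0 ∧ TT 3 (DD ^ (2 * κ + 1)) = f) ∨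
    (∃ j, j < κ ∧ ev j + 1 = ev κ ∧ od j = od κ ∧
      TT 3 (DD ^ (2 * κ + 1)) = DD ^ (2 * j + 1) + f) := by
  intro κ
  induction κ using Nat.strong_induction_on with
  | _ κ ih =>
    by_cases hsmall : κ < 4
    · refine ⟨0, Submodule.zero_mem _, ?_⟩
      rcases (by omega : κ = 0 ∨ κ = 1 ∨ κ = 2 ∨ κ = 3) with rfl | rfl | rfl | rfl
      · left
        refine ⟨ev_zero, ?_⟩
        rw [mul_zero, zero_add, pow_one]
        exact TT_three_one
      · right
        refine ⟨0, by norm_num, ?_, ?_, ?_⟩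
        · rw [ev_zero, ev_one]
        · rw [od_zero, od_one]
        · rw [show 2 * 1 + 1 = 3 by norm_num, TT_three_three]; ring
      · left
        refine ⟨ev_two, ?_⟩
        rw [show 2 * 2 + 1 = 5 by norm_num]
        exact TT_three_five
      · right
        refine ⟨2, by norm_num, ?_, ?_, ?_⟩
        · rw [ev_two, ev_three]
        · rw [od_two, od_three]
        · rw [show 2 * 3 + 1 = 7 by norm_num, TT_three_seven]; ring
    · -- the top digit
      obtain ⟨i, hi1, hi2⟩ : ∃ i, 4 * 4 ^ i ≤ κ ∧ κ < 16 * 4 ^ i := by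
        refine ⟨Nat.log 4 κ - 1, ?_, ?_⟩
        · have h1 : 1 ≤ Nat.log 4 κ := by
            rw [Nat.le_log_iff_pow_le (by norm_num) (by omega)]; omega
          have h2 := Nat.pow_log_le_self 4 (show κ ≠ 0 by omega)
          have h3 : 4 ^ Nat.log 4 κ = 4 * 4 ^ (Nat.log 4 κ - 1) := by
            rw [← pow_succ']; congr 1; omega
          omega
        · have h1 : 1 ≤ Nat.log 4 κ := by
            rw [Nat.le_log_iff_pow_le (by norm_num) (by omega)]; omega
          have h2 := Nat.lt_pow_succ_log_self (show 1 < 4 by norm_num) κ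
          have h3 : 4 ^ (Nat.log 4 κ).succ = 16 * 4 ^ (Nat.log 4 κ - 1) := by
            rw [show (Nat.log 4 κ).succ = (Nat.log 4 κ - 1) + 2 by omega, pow_add]; ring
          omega
      have hp4 : 0 < 4 ^ i := by positivity
      have hp2 : 0 < 2 ^ i := by positivity
      by_cases hA : κ < 8 * 4 ^ i
      · -- Case A
        obtain ⟨κ₀, hκ⟩ : ∃ κ₀, κ = κ₀ + 4 * 4 ^ i := ⟨κ - 4 * 4 ^ i, by omega⟩
        have hκ₀ : κ₀ < 4 * 4 ^ i := by omega
        have hev : ev κ = ev κ₀ + 2 * 2 ^ i := by rw [hκ]; exact ev_top i κ₀ hκ₀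
        have hod : od κ = od κ₀ := by rw [hκ]; exact od_top i κ₀ hκ₀
        obtain ⟨f₀, hf₀, h₀⟩ := ih κ₀ (by omega)
        obtain ⟨f₁, hf₁, h₁⟩ := ih (κ₀ + 4 ^ i) (by omega)
        have hrec := rec3A κ₀ i
        rw [← hκ] at hrec
        have hdgκ : dg κ = dg κ₀ + 2 * 2 ^ i := by unfold dg; omega
        -- the second term
        have hF₀ : DD ^ (2 * (4 * 4 ^ i)) * f₀ ∈ Submodule.span (ZMod 2) (LowT κ 0) := by
          refine mul_mem_of_span _ ?_ hf₀
          rintro s ⟨j, hj1, hj2, hj3, rfl⟩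
          rw [mul_DD]
          apply Submodule.subset_span
          have e1 := ev_top i j (by omega)
          have e2 := od_top i j (by omega)
          refine ⟨j + 4 * 4 ^ i, by omega, ?_, ?_, rfl⟩
          · unfold dg at *; omega
          · intro h; unfold dg at *; omega
        -- the first term: general facts
        have hk1 := add_pow_four_cases i κ₀
        have hF₁ : DD ^ (2 * 4 ^ i) * f₁ ∈ Submodule.span (ZMod 2) (LowT κ 0) := by
          refine mul_mem_of_span _ ?_ hf₁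
          rintro s ⟨j, hj1, hj2, hj3, rfl⟩
          rw [mul_DD]
          apply Submodule.subset_span
          have hj := add_pow_four_cases i j
          refine ⟨j + 4 ^ i, by omega, ?_, ?_, rfl⟩
          · unfold dg at *
            rcases hj with ⟨a1, a2, a3⟩ | ⟨a1, a2⟩ <;> rcases hk1 with ⟨b1, b2, b3⟩ | ⟨b1, b2⟩ <;>
              omega
          · intro h
            unfold dg at *
            rcases hj with ⟨a1, a2, a3⟩ | ⟨a1, a2⟩ <;> rcases hk1 with ⟨b1, b2, b3⟩ | ⟨b1, b2⟩ <;>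
              omega
        -- main terms
        have hev0 : ev κ₀ < 2 * 2 ^ i := by
          have := ev_lt (i + 1) κ₀ (by rw [pow_succ]; omega)
          rw [pow_succ] at this
          omega
        have hdiv0 : ev κ₀ / 2 ^ i % 2 = 0 → ev κ₀ < 2 ^ i := by
          intro h
          by_contra hcon
          have h1 : 1 ≤ ev κ₀ / 2 ^ i := by
            rw [Nat.le_div_iff_mul_le hp2]; omega
          have h2 : ev κ₀ / 2 ^ i < 2 := by
            rw [Nat.div_lt_iff_lt_mul hp2]; omega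
          omega
        -- the contribution of the first main term is low if it is not the main term
        have hlow : ∀ j, j < κ₀ + 4 ^ i → ev j + 1 = ev (κ₀ + 4 ^ i) → od j = od (κ₀ + 4 ^ i) →
            ¬ (ev κ₀ = 0 ∧ ev j / 2 ^ i % 2 = 0) →
            DD ^ (2 * 4 ^ i) * DD ^ (2 * j + 1) ∈ Submodule.span (ZMod 2) (LowT κ 0) := by
          intro j hj1 hj2 hj3 hj4
          rw [mul_DD]
          apply Submodule.subset_span
          have hj := add_pow_four_cases i j
          have hstrict : dg (j + 4 ^ i) + 1 < dg κ := by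
            unfold dg at *
            rcases hj with ⟨a1, a2, a3⟩ | ⟨a1, a2⟩ <;> rcases hk1 with ⟨b1, b2, b3⟩ | ⟨b1, b2⟩
            · exfalso
              have h1 := hdiv0 b3
              have h2 : ev κ₀ ≠ 0 := fun h => hj4 ⟨h, a3⟩
              have h3 : 1 ≤ ev j / 2 ^ i := by
                rw [Nat.le_div_iff_mul_le hp2]; omega
              have h4 : ev j / 2 ^ i < 2 := by
                rw [Nat.div_lt_iff_lt_mul hp2]; omega
              omega
            · omega
            · omega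
            · omega
          exact ⟨j + 4 ^ i, by omega, by omega, by omega, rfl⟩
        rcases h₀ with ⟨g1, g2⟩ | ⟨j₀, g0, g1, g2, g3⟩
        · -- ev κ₀ = 0
          have hz : ev κ₀ / 2 ^ i % 2 = 0 := by rw [g1]; simp
          have hb : ev (κ₀ + 4 ^ i) = ev κ₀ + 2 ^ i ∧ od (κ₀ + 4 ^ i) = od κ₀ := by
            rcases hk1 with ⟨b1, b2, b3⟩ | ⟨b1, b2⟩
            · exact ⟨b1, b2⟩
            · omega
          rcases h₁ with ⟨m1, m2⟩ | ⟨j₁, m0, m1, m2, m3⟩
          · omega
          · have hj := add_pow_four_cases i j₁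
            have hlt : ev j₁ < 2 ^ i := by omega
            have hz1 : ev j₁ / 2 ^ i = 0 := Nat.div_eq_of_lt hlt
            rcases hj with ⟨a1, a2, a3⟩ | ⟨a1, a2⟩
            · refine ⟨DD ^ (2 * 4 ^ i) * f₁ + DD ^ (2 * (4 * 4 ^ i)) * f₀,
                Submodule.add_mem _ hF₁ hF₀, Or.inr ⟨j₁ + 4 ^ i, by omega, by omega, by omega, ?_⟩⟩
              rw [hrec, m3, g2, mul_add, mul_DD]
              ring
            · omega
        · -- ev κ₀ ≥ 1
          have e1 := ev_top i j₀ (by omega)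
          have e2 := od_top i j₀ (by omega)
          rcases h₁ with ⟨m1, m2⟩ | ⟨j₁, m0, m1, m2, m3⟩
          · refine ⟨DD ^ (2 * 4 ^ i) * f₁ + DD ^ (2 * (4 * 4 ^ i)) * f₀,
              Submodule.add_mem _ hF₁ hF₀, Or.inr ⟨j₀ + 4 * 4 ^ i, by omega, by omega, by omega,
              ?_⟩⟩
            rw [hrec, m2, g3, mul_add, mul_DD]
            ring
          · refine ⟨DD ^ (2 * 4 ^ i) * DD ^ (2 * j₁ + 1) + DD ^ (2 * 4 ^ i) * f₁ +
              DD ^ (2 * (4 * 4 ^ i)) * f₀,
              Submodule.add_mem _ (Submodule.add_mem _ (hlow j₁ m0 m1 m2 (by omega)) hF₁) hF₀,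
              Or.inr ⟨j₀ + 4 * 4 ^ i, by omega, by omega, by omega, ?_⟩⟩
            rw [hrec, m3, g3, mul_add, mul_add, mul_DD (4 * 4 ^ i) j₀]
            ring
      · -- Case B
        obtain ⟨κ₀, hκ⟩ : ∃ κ₀, κ = κ₀ + 8 * 4 ^ i := ⟨κ - 8 * 4 ^ i, by omega⟩
        have hκ₀ : κ₀ < 8 * 4 ^ i := by omega
        have hev : ev κ = ev κ₀ := by rw [hκ]; exact ev_top' i κ₀ hκ₀
        have hod : od κ = od κ₀ + 2 * 2 ^ i := by rw [hκ]; exact od_top' i κ₀ hκ₀
        obtain ⟨f₀, hf₀, h₀⟩ := ih κ₀ (by omega)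
        obtain ⟨f₁, hf₁, h₁⟩ := ih (κ₀ + 2 * 4 ^ i) (by omega)
        have hrec := rec3B κ₀ i
        rw [← hκ] at hrec
        have hdgκ : dg κ = dg κ₀ + 2 * 2 ^ i := by unfold dg; omega
        have hF₀ : DD ^ (2 * (8 * 4 ^ i)) * f₀ ∈ Submodule.span (ZMod 2) (LowT κ 0) := by
          refine mul_mem_of_span _ ?_ hf₀
          rintro s ⟨j, hj1, hj2, hj3, rfl⟩
          rw [mul_DD]
          apply Submodule.subset_span
          have e1 := ev_top' i j (by omega)
          have e2 := od_top' i j (by omega)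
          refine ⟨j + 8 * 4 ^ i, by omega, ?_, ?_, rfl⟩
          · unfold dg at *; omega
          · intro h; unfold dg at *; omega
        have hk1 := add_two_pow_four_cases i κ₀
        have hod0 : od κ₀ < 4 * 2 ^ i := by
          have := od_lt (i + 2) κ₀ (by rw [pow_add]; omega)
          rw [pow_add] at this
          omega
        have hod0' : od κ₀ < 2 * 2 ^ i := by
          by_contra hcon
          -- κ₀ < 8 * 4 ^ i has no digit at the odd position above
          obtain ⟨a, b, ha, hj⟩ := exists_block (i + 1) κ₀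
          have hb : b < 2 := by
            rw [pow_succ] at hj
            by_contra hcon
            have h5 : 2 ≤ b := by omega
            have h6 : 4 ^ i * 4 * 2 ≤ 4 ^ i * 4 * b := Nat.mul_le_mul_left _ h5
            omega
          have h7 : od b = 0 := by
            rcases (by omega : b = 0 ∨ b = 1) with rfl | rfl
            · exact od_zero
            · exact od_one
          have h8 : od κ₀ = od a := by rw [hj, od_block _ _ _ ha, h7]; ring
          have h9 := od_lt (i + 1) a ha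
          rw [pow_succ] at h9
          omega
        -- all terms of the first summand are low
        have hlow : ∀ j, j < κ₀ + 2 * 4 ^ i → dg j + 1 ≤ dg (κ₀ + 2 * 4 ^ i) →
            (dg j + 1 = dg (κ₀ + 2 * 4 ^ i) → od j ≤ od (κ₀ + 2 * 4 ^ i)) →
            DD ^ (2 * (2 * 4 ^ i)) * DD ^ (2 * j + 1) ∈ Submodule.span (ZMod 2) (LowT κ 0) := by
          intro j hj1 hj2 hj3
          rw [mul_DD]
          apply Submodule.subset_span
          have hj := add_two_pow_four_cases i j
          refine ⟨j + 2 * 4 ^ i, by omega, ?_, ?_, rfl⟩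
          · unfold dg at *
            rcases hj with ⟨a1, a2, a3⟩ | ⟨a1, a2, a3⟩ | ⟨a1, a2⟩ <;>
              rcases hk1 with ⟨b1, b2, b3⟩ | ⟨b1, b2, b3⟩ | ⟨b1, b2⟩ <;> omega
          · intro h
            unfold dg at *
            rcases hj with ⟨a1, a2, a3⟩ | ⟨a1, a2, a3⟩ | ⟨a1, a2⟩ <;>
              rcases hk1 with ⟨b1, b2, b3⟩ | ⟨b1, b2, b3⟩ | ⟨b1, b2⟩
            · -- no carry in both
              have h1 : od κ₀ < 2 ^ i := by
                by_contra hcon
                have h1 : 1 ≤ od κ₀ / 2 ^ i := by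
                  rw [Nat.le_div_iff_mul_le hp2]; omega
                have h2 : od κ₀ / 2 ^ i < 2 := by
                  rw [Nat.div_lt_iff_lt_mul hp2]; omega
                omega
              have h2 : od j ≤ od κ₀ + 2 ^ i := by omega
              have h3 : od j ≠ od κ₀ + 2 ^ i := by
                intro h4
                have h5 : 1 ≤ od j / 2 ^ i := by
                  rw [Nat.le_div_iff_mul_le hp2]; omega
                have h6 : od j / 2 ^ i < 2 := by
                  rw [Nat.div_lt_iff_lt_mul hp2]; omega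
                omega
              omega
            all_goals omega
        have hF₁ : DD ^ (2 * (2 * 4 ^ i)) * f₁ ∈ Submodule.span (ZMod 2) (LowT κ 0) := by
          refine mul_mem_of_span _ ?_ hf₁
          rintro s ⟨j, hj1, hj2, hj3, rfl⟩
          exact hlow j hj1 hj2 (fun h => by have := hj3 h; omega)
        have hT₁ : DD ^ (2 * (2 * 4 ^ i)) * TT 3 (DD ^ (2 * (κ₀ + 2 * 4 ^ i) + 1)) ∈
            Submodule.span (ZMod 2) (LowT κ 0) := by
          rcases h₁ with ⟨m1, m2⟩ | ⟨j₁, m0, m1, m2, m3⟩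
          · rw [m2]; exact hF₁
          · rw [m3, mul_add]
            refine Submodule.add_mem _ (hlow j₁ m0 ?_ ?_) hF₁
            · unfold dg; omega
            · intro _; omega
        rcases h₀ with ⟨g1, g2⟩ | ⟨j₀, g0, g1, g2, g3⟩
        · refine ⟨_, Submodule.add_mem _ hT₁ hF₀, Or.inl ⟨by omega, ?_⟩⟩
          rw [hrec, g2]
        · have e1 := ev_top' i j₀ (by omega)
          have e2 := od_top' i j₀ (by omega)
          refine ⟨_, Submodule.add_mem _ hT₁ hF₀, Or.inr ⟨j₀ + 8 * 4 ^ i, by omega, by omega,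
            by omega, ?_⟩⟩
          rw [hrec, g3, mul_add (DD ^ (2 * (8 * 4 ^ i))), mul_DD (8 * 4 ^ i) j₀]
          ring

end Pool.Agent.helper7.OC
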