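import Mathlib
import Pool.Agent.helper38.PO.Dom3
import Pool.Agent.helper79.OC.Dom5

/-!
Dominance for `T_3`, second form.
-/

set_option autoImplicit false
open PowerSeries Finset

namespace Pool.Agent.helper7.OC

open Pool.Agent.helper12.PE (DD)

/-- Dominance of `T_3` at the index `k`. -/
def D3 (k : ℕ) : Prop := ∃ f ∈ Lo k (dg k) (od k), (ev k = 0 → TT 3 (DD ^ (2 * k + 1)) = f) ∧
  (1 ≤ ev k → ∃ m, m < k ∧ ev m + 1 = ev k ∧ od m = od k ∧
    TT 3 (DD ^ (2 * k + 1)) = DD ^ (2 * m + 1) + f)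

theorem dom_three' (k : ℕ) : D3 k := by
  obtain ⟨f, hf, h⟩ := dom_three k
  have hle : Submodule.span (ZMod 2) (LowT k 0) ≤ Lo k (dg k) (od k) := by
    apply Submodule.span_mono
    rintro s ⟨j, hj1, hj2, hj3, rfl⟩
    exact ⟨j, hj1, by omega, fun he => by have := hj3 he; omega, rfl⟩
  refine ⟨f, hle hf, ?_, ?_⟩
  · intro h0
    rcases h with ⟨h1, h2⟩ | ⟨j, h0', h1, h2, h3⟩
    · exact h2
    · omega
  · intro h0
    rcases h with ⟨h1, h2⟩ | ⟨j, h0', h1, h2, h3⟩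
    · omega
    · exact ⟨j, h0', h1, h2, h3⟩

end Pool.Agent.helper7.OC
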