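import Mathlib
import Pool.Agent.helper38.PO.Dom3
import Pool.Agent.helper79.PO.Defs

/-!
Dominance for `T_3`, in terms of the Nicolas-Serre code.
-/

set_option autoImplicit false
open PowerSeries Finset

namespace Pool.Agent.helper79.PO

open Pool.Agent.helper81 (two_eq_zero' add_self')
open Pool.Agent.helper12.PE (DD)
open Pool.Agent.helper7.OC (TT ev od dg ev_eq od_eq LowT dom_three)

lemma od_eq_ev (m : ℕ) : od m = ev (m / 2) := by
  induction m using Nat.strong_induction_on with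
  | _ m ih =>
    rcases Nat.eq_zero_or_pos m with rfl | hm
    · simp [Pool.Agent.helper7.OC.od_zero]
    · rw [od_eq, ev_eq (m / 2), ih (m / 4) (by omega)]
      rw [show m / 4 / 2 = m / 2 / 4 by omega]

lemma n3_odd (κ : ℕ) : n3 (2 * κ + 1) = ev κ := by
  unfold n3
  rw [show (2 * κ + 1) / 2 = κ by omega]

lemma n5_odd (κ : ℕ) : n5 (2 * κ + 1) = od κ := by
  unfold n5
  rw [od_eq_ev, show (2 * κ + 1) / 4 = κ / 2 by omega]

lemma ht_odd (κ : ℕ) : ht (2 * κ + 1) = dg κ := by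
  unfold ht dg
  rw [n3_odd, n5_odd]

/-- Dominance for `T_3`. -/
theorem dom3 (k : ℕ) (hk : k % 2 = 1) :
    TT 3 (DD ^ k) + (if 1 ≤ n3 k then DD ^ (code (n3 k - 1) (n5 k)) else 0) ∈
      Low k (ht k - 1) (n5 k) := by
  obtain ⟨κ, rfl⟩ : ∃ κ, k = 2 * κ + 1 := ⟨k / 2, by omega⟩
  obtain ⟨f, hf, h⟩ := dom_three κ
  have hle : Submodule.span (ZMod 2) (LowT κ 0) ≤
      Low (2 * κ + 1) (ht (2 * κ + 1) - 1) (n5 (2 * κ + 1)) := by
    apply Submodule.span_mono
    rintro s ⟨j, hj1, hj2, hj3, rfl⟩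
    refine ⟨2 * j + 1, by omega, by omega, ?_, rfl⟩
    rw [ht_odd, ht_odd, n5_odd, n5_odd]
    by_cases he : dg j + 1 = dg κ
    · right
      exact ⟨by omega, by have := hj3 he; omega⟩
    · left; omega
  rcases h with ⟨h1, h2⟩ | ⟨j, h0, h1, h2, h3⟩
  · rw [n3_odd, if_neg (by omega), add_zero, h2]
    exact hle hf
  · have hj : code (n3 (2 * κ + 1) - 1) (n5 (2 * κ + 1)) = 2 * j + 1 := by
      rw [n3_odd, n5_odd, ← h1, ← h2, Nat.add_sub_cancel, ← n3_odd, ← n5_odd]
      exact code_n3_n5 _ (by omega)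
    rw [n3_odd, if_pos (by omega), ← n3_odd, hj, h3]
    have : DD ^ (2 * j + 1) + f + DD ^ (2 * j + 1) = f := by
      linear_combination DD ^ (2 * j + 1) * two_eq_zero'
    rw [this]
    exact hle hf

end Pool.Agent.helper79.PO
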